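import Pool.Agent.Helper11.PK.Coh

/-!
Coherence of parafree groups, and of subgroups of parafree groups, which act on trees.
-/

namespace Pool.Agent.Results.MP_1f931d_al.CoherenceOnTrees

open Pool.Agent.Helper28.Para Pool.Agent.Helper11.PK

universe u v w

/-- Let `K` be a subgroup of a parafree group `G` (for example `K = ⊤`) acting on a tree.  If the
vertex stabilizers are coherent and each edge stabilizer is an intersection `A ∩ B` with `B ≤ G`
finitely generated and `A ≤ G` generated by at most two elements or by visible elements, then `K`
is coherent. -/
theorem result {X : Type v} {G : Type u} [Group G] (hG : IsParafreeOn X G)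
    (K : Subgroup G) {V : Type w} [MulAction K V] (T : SimpleGraph V) (hT : T.IsTree)
    (hact : ∀ (g : K) (v w : V), T.Adj v w → T.Adj (g • v) (g • w))
    (hcoh : ∀ v : V, IsCoherent (MulAction.stabilizer K v))
    (hedge : ∀ v w : V, T.Adj v w →
      EdgeOK ((MulAction.stabilizer K v ⊓ MulAction.stabilizer K w).map K.subtype)) :
    IsCoherent K :=
  coherent_of_tree hG K T hT hact hcoh hedge

end Pool.Agent.Results.MP_1f931d_al.CoherenceOnTrees
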