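import Mathlib
import Pool.Agent.Helper28.Para.Pub

/-!
The pronilpotent completion of the free group of rank two is a universal parafree group for
countable subgroups, and the coherence of all parafree groups is the coherence of this one group.
-/

namespace Pool.Agent.Results.MP_1f931d_al.CoherenceReduction

open Pool.Agent.Helper28.Para

universe u v

/-- The pronilpotent completion `F2hat` of the free group of rank two is parafree of rank two; every
countable subgroup of a parafree group (of any rank and cardinality) embeds in a countable subgroup
of `F2hat` which contains the free group and is parafree of rank two; and the following statements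
are equivalent: every parafree group is coherent; every countable parafree group of rank two is
coherent; `F2hat` is coherent; every countable parafree subgroup of rank two of `F2hat` containing
the free group is coherent. -/
theorem result :
    IsParafreeOn (Fin 2) F2hat ∧
    (∀ (X : Type v) (G : Type u) [Group G], IsParafreeOn X G → ∀ H : Subgroup G, Countable H →
      ∃ P : Subgroup F2hat, IsBetween P ∧ Embeds H P) ∧
    List.TFAE [
      ∀ (G : Type u) [Group G], IsParafree G → IsCoherent G,
      ∀ (G : Type) [Group G], Countable G → IsParafreeOn (Fin 2) G → IsCoherent G,
      IsCoherent F2hat,
      ∀ P : Subgroup F2hat, IsBetween P → IsCoherent P] := by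
  refine ⟨F2hat_parafree, fun X G _ hG H hH => embed_between hG H hH, ?_⟩
  tfae_have 1 → 3 := coherent_ulift
  tfae_have 3 → 1 := fun h G _ ⟨X, hG⟩ => coherent_of_F2hat h hG
  tfae_have 3 → 2 := fun h G _ _ hG => coherent_of_F2hat h hG
  tfae_have 2 → 4 := fun h P hP => @h P _ hP.1 hP.2.2
  tfae_have 4 → 3 := F2hat_coherent
  tfae_finish

end Pool.Agent.Results.MP_1f931d_al.CoherenceReduction
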