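import Pool.Agent.Helper11.PK.Tree

/-!
Intersections of finitely generated subgroups of parafree groups with visible free subgroups.
-/

namespace Pool.Agent.Results.MP_1f931d_al.VisibleIntersections

open Pool.Agent.Helper28.Para Pool.Agent.Helper11.PK

universe u v w

/-- Let `G` be parafree.  (1) Let `A` and `B` be the subgroups generated by `a₁, …, a_r` and by
`b₁, …, b_n`, `n ≥ 1`, and let `π` be a homomorphism from `G` to a finite `p`-group such that
`π(A)` is not generated by fewer than `r` elements.  Then `A` is free on the `a_j`, and `A ∩ B` is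
free of rank at most `1 + [π(B) : π(A) ∩ π(B)] (n - 1)`.  (2) `A ∩ B` is finitely generated whenever
`A` is generated by two elements and `B` is finitely generated. -/
theorem result {X : Type v} {G : Type u} [Group G] (hG : IsParafreeOn X G) :
    (∀ (p : ℕ) (_ : p.Prime) {P : Type w} [Group P] [Finite P] (_ : IsPGroup p P) (π : G →* P)
      {r : ℕ} (a : Fin r → G) (_ : MinGen ((Subgroup.closure (Set.range a)).map π) r)
      {n : ℕ} (_ : 1 ≤ n) (b : Fin n → G),
      Function.Injective (FreeGroup.lift a : FreeGroup (Fin r) →* G) ∧
      ∃ k ≤ 1 + ((Subgroup.closure (Set.range a)).map π).relIndex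
          ((Subgroup.closure (Set.range b)).map π) * (n - 1),
        ∃ c : Fin k → G, Function.Injective (FreeGroup.lift c : FreeGroup (Fin k) →* G) ∧
          Subgroup.closure (Set.range c) =
            Subgroup.closure (Set.range a) ⊓ Subgroup.closure (Set.range b)) ∧
    (∀ (x y : G) (B : Subgroup G), B.FG → (Subgroup.closure {x, y} ⊓ B).FG) := by
  refine ⟨?_, ?_⟩
  · intro p hp P _ _ hP π r a hr n hn b
    haveI : Fact p.Prime := ⟨hp⟩
    exact inert_visible hG p hP π a hr hn b
  · intro x y B hB
    have h1 := good_two hG x y (Subgroup.closure {x, y})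
      ((Subgroup.fg_iff _).2 ⟨{x, y}, rfl, by simp⟩) B hB
    rwa [inf_idem, inf_comm] at h1

end Pool.Agent.Results.MP_1f931d_al.VisibleIntersections
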